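import Mathlib
import Pool.Agent.helper60.POS.Defs

set_option autoImplicit false

/-!
# Module G: a large family all of whose finite intersections are large
-/

open Cardinal Order

namespace Pool.Agent.helper60.POS

open Pool.Agent.helper60.FcU

section G

/-- Infinite pigeonhole: a map from a set of size `κ⁺` to a type of size at most `κ` has a fibre of
size `κ⁺`. -/
theorem exists_fibre {κ : Cardinal.{0}} (hκ : ℵ₀ ≤ κ) {L T : Type} (B : Set L) (hB : #B = succ κ)
    (f : B → T) (hT : #T ≤ κ) : ∃ (t : T) (B' : Set L) (hB' : B' ⊆ B), #B' = succ κ ∧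
      ∀ y : L, ∀ hy : y ∈ B', f ⟨y, hB' hy⟩ = t := by
  have hreg : (succ κ).IsRegular := isRegular_succ hκ
  obtain ⟨t, ht⟩ := Cardinal.infinite_pigeonhole_card f (succ κ) hB.ge (hκ.trans (le_succ κ))
    (by rw [hreg.cof_ord]; exact lt_of_le_of_lt hT (lt_succ κ))
  refine ⟨t, Subtype.val '' (f ⁻¹' {t}), ?_, ?_, ?_⟩
  · rintro _ ⟨y, _, rfl⟩
    exact y.2
  · apply le_antisymm
    · rw [← hB]
      apply Cardinal.mk_le_mk_of_subset
      rintro _ ⟨y, _, rfl⟩
      exact y.2
    · rw [Cardinal.mk_image_eq Subtype.val_injective]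
      exact ht
  · rintro _ ⟨y, hy, rfl⟩
    exact hy

variable {κ : Cardinal.{0}} {K L S : Type} [Preorder S]

theorem bad_small (kj : ℕ → Cardinal.{0}) (hkj : ∀ j, kj j < κ)
    (hkj' : ∀ μ < κ, ∃ j, μ ≤ kj j) (hkjm : Monotone kj) (hlim : ∀ μ < κ, succ μ < κ)
    (hκ : ℵ₀ < κ) (hS : #S < κ)
    (U : K → L → S → Prop) (s₀ : S)
    (H : ∀ X : K → S → Prop, (∀ x, Reg (X x)) → ∀ s ≤ s₀, Big kj X s → ∀ B : Set L,
      #B = succ κ → ∃ x, ∃ y ∈ B, ∃ t ≤ s, X x t ∧ U x y t)
    (X : K → S → Prop) (hX : ∀ x, Reg (X x)) (hbig : Big kj X s₀) :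
    #{y : L | ¬ Big kj (fun x s => X x s ∧ U x y s) s₀} ≤ κ := by
  classical
  by_contra hcon
  rw [not_le, ← succ_le_iff] at hcon
  obtain ⟨B₀, hB₀, hB₀c⟩ := Cardinal.le_mk_iff_exists_subset.1 hcon
  have h1 : ∀ y : B₀, ∃ q : S × ℕ, q.1 ≤ s₀ ∧
      ∀ u ≤ q.1, #{x | X x u ∧ U x y.1 u} < kj q.2 := by
    intro y
    have := hB₀ y.2
    simp only [Set.mem_ofPred_eq, Big, not_forall, not_exists, not_and, not_le] at this
    obtain ⟨t, ht, j, h⟩ := this
    exact ⟨(t, j), ht, h⟩
  choose f hf using h1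
  have hSN : #(S × ℕ) ≤ κ := by
    rw [mk_prod, lift_id, lift_id, mk_nat]
    exact (mul_le_max_of_aleph0_le_right le_rfl).trans (max_le hS.le hκ.le)
  obtain ⟨q, B₁, hB₁, hB₁c, hB₁f⟩ := exists_fibre hκ.le B₀ hB₀c f hSN
  obtain ⟨s, j⟩ := q
  have hB₁' : ∀ y ∈ B₁, ∀ u ≤ s, #{x | X x u ∧ U x y u} < kj j := by
    intro y hy u hu
    have := (hf ⟨y, hB₁ hy⟩).2 u
    rw [hB₁f y hy] at this
    exact this hu
  have hss₀ : s ≤ s₀ := by
    have hne : B₁.Nonempty := by
      rw [← Set.nonempty_coe_sort, ← mk_ne_zero_iff, hB₁c]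
      exact (lt_of_le_of_lt zero_le (lt_succ κ)).ne'
    obtain ⟨y, hy⟩ := hne
    have := (hf ⟨y, hB₁ hy⟩).1
    rw [hB₁f y hy] at this
    exact this
  set μ : Cardinal.{0} := max (kj j) (max #S ℵ₀) with hμ
  have hμκ : μ < κ := max_lt (hkj j) (max_lt hS hκ)
  have hμ0 : ℵ₀ ≤ μ := (le_max_right _ _).trans (le_max_right _ _)
  set θ : Cardinal.{0} := succ μ with hθ
  have hθκ : θ < κ := hlim μ hμκ
  have hθ0 : ℵ₀ ≤ θ := hμ0.trans (le_succ μ)
  let T : L → Set K := fun y => {x | ∃ u ≤ s, X x u ∧ U x y u}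
  have hT : ∀ y ∈ B₁, #(T y) ≤ μ := by
    intro y hy
    have h2 : T y = ⋃ u : {u : S // u ≤ s}, {x | X x u.1 ∧ U x y u.1} := by
      ext x
      simp only [T, Set.mem_ofPred_eq, Set.mem_iUnion, Subtype.exists, exists_prop]
    rw [h2]
    refine (mk_iUnion_le _).trans ?_
    have h3 : #{u : S // u ≤ s} ≤ μ := (mk_subtype_le _).trans
      ((le_max_left _ _).trans (le_max_right _ _))
    have h4 : (⨆ u : {u : S // u ≤ s}, #{x | X x u.1 ∧ U x y u.1}) ≤ μ := by
      apply ciSup_le'
      intro u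
      exact (hB₁' y hy u.1 u.2).le.trans (le_max_left _ _)
    exact (mul_le_mul' h3 h4).trans (mul_eq_self hμ0).le
  -- the injections
  have hg : ∀ (u : S) (m : ℕ), θ ≤ kj m → kj m ≤ #{x | X x u} →
      Nonempty (θ.ord.ToType × (kj m).ord.ToType ↪ {x | X x u}) := by
    intro u m h5 h6
    rw [← Cardinal.le_def, mk_prod, lift_id, lift_id, mk_ord_toType, mk_ord_toType]
    refine le_trans ?_ h6
    exact (mul_le_mul' h5 le_rfl).trans (mul_eq_self (hθ0.trans h5)).le
  let Kk : θ.ord.ToType → Set K := fun i => {x | ∃ (u : S) (m : ℕ) (h5 : θ ≤ kj m)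
    (h6 : kj m ≤ #{x | X x u}) (z : (kj m).ord.ToType),
      ((Classical.choice (hg u m h5 h6)) (i, z) : K) = x}
  have hi : ∀ y : B₁, ∃ i : θ.ord.ToType, ∀ x ∈ T y.1, x ∉ Kk i := by
    intro y
    by_contra hno
    push Not at hno
    choose x hxT hxK using hno
    choose u m h5 h6 z hz using hxK
    let φ : θ.ord.ToType → (T y.1) × S × ℕ := fun i => (⟨x i, hxT i⟩, u i, m i)
    have hφ : Function.Injective φ := by
      intro i i' hii
      simp only [φ, Prod.mk.injEq, Subtype.mk.injEq] at hii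
      obtain ⟨e1, e2, e3⟩ := hii
      have hh : ∀ (u u' : S) (m m' : ℕ) (h5 : θ ≤ kj m) (h6 : kj m ≤ #{x | X x u})
          (h5' : θ ≤ kj m') (h6' : kj m' ≤ #{x | X x u'}) (z : (kj m).ord.ToType)
          (z' : (kj m').ord.ToType), u = u' → m = m' →
          ((Classical.choice (hg u m h5 h6)) (i, z) : K) =
          ((Classical.choice (hg u' m' h5' h6')) (i', z') : K) → i = i' := by
        intro u u' m m' h5 h6 h5' h6' z z' eu em he
        subst eu
        subst em
        have := (Classical.choice (hg u m h5 h6)).injective (Subtype.ext he)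
        exact (Prod.mk.inj this).1
      refine hh _ _ _ _ (h5 i) (h6 i) (h5 i') (h6 i') (z i) (z i') e2 e3 ?_
      rw [hz i, hz i', e1]
    have h7 := mk_le_of_injective hφ
    rw [mk_ord_toType, mk_prod, mk_prod, lift_id, lift_id, lift_id, lift_id, mk_nat] at h7
    have h8 : #(T y.1) * (#S * ℵ₀) ≤ μ := by
      have h9 : #S * ℵ₀ ≤ μ := (mul_le_mul' ((le_max_left _ _).trans (le_max_right _ _)) hμ0).trans
        (mul_eq_self hμ0).le
      exact (mul_le_mul' (hT y.1 y.2) h9).trans (mul_eq_self hμ0).le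
    exact absurd (h7.trans h8) (not_le.2 (lt_succ μ))
  choose idx hidx using hi
  have hθT : #θ.ord.ToType ≤ κ := by
    rw [mk_ord_toType]
    exact hθκ.le
  obtain ⟨i, B₂, hB₂, hB₂c, hB₂f⟩ := exists_fibre hκ.le B₁ hB₁c idx hθT
  -- the smaller name
  have hX' : ∀ x, Reg (fun s => X x s ∧ x ∈ Kk i) := fun x => (hX x).and (Reg.const _)
  have hbig' : Big kj (fun x s => X x s ∧ x ∈ Kk i) s := by
    intro t ht j'
    obtain ⟨m₀, hm₀⟩ := hkj' θ hθκ
    have h5 : θ ≤ kj (max m₀ j') := hm₀.trans (hkjm (le_max_left _ _))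
    obtain ⟨u, hu, h6⟩ := hbig t (ht.trans hss₀) (max m₀ j')
    refine ⟨u, hu, ?_⟩
    have h10 : kj j' ≤ kj (max m₀ j') := hkjm (le_max_right _ _)
    refine h10.trans ?_
    let g := Classical.choice (hg u (max m₀ j') h5 h6)
    have h11 : #(kj (max m₀ j')).ord.ToType ≤ #{x | X x u ∧ x ∈ Kk i} := by
      refine mk_le_of_injective (f := fun z => (⟨(g (i, z) : K), ?_, ?_⟩ :
        {x | X x u ∧ x ∈ Kk i})) ?_
      · exact (g (i, z)).2
      · exact ⟨u, max m₀ j', h5, h6, z, rfl⟩
      · intro z z' hzz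
        simp only [Subtype.mk.injEq] at hzz
        have := g.injective (Subtype.ext hzz)
        exact (Prod.mk.inj this).2
    rwa [mk_ord_toType] at h11
  obtain ⟨x, y, hy, t, ht, hXx, hUx⟩ := H _ hX' s hss₀ hbig' B₂ hB₂c
  have h12 := hidx ⟨y, hB₂ hy⟩ x ⟨t, ht, hXx.1, hUx⟩
  rw [hB₂f y hy] at h12
  exact h12 hXx.2

theorem exists_family {κ : Cardinal.{0}} {K L S : Type} [Preorder S] (hK : #K = κ)
    (hL : #L = succ κ) (kj : ℕ → Cardinal.{0}) (hkj : ∀ j, kj j < κ)
    (hkj' : ∀ μ < κ, ∃ j, μ ≤ kj j) (hkjm : Monotone kj) (hlim : ∀ μ < κ, succ μ < κ)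
    (hκ : ℵ₀ < κ) (hS : #S < κ)
    (U : K → L → S → Prop) (hU : ∀ x y, Reg (U x y)) (s₀ : S)
    (H : ∀ X : K → S → Prop, (∀ x, Reg (X x)) → ∀ s ≤ s₀, Big kj X s → ∀ B : Set L,
      #B = succ κ → ∃ x, ∃ y ∈ B, ∃ t ≤ s, X x t ∧ U x y t) :
    ∃ C : Set L, #C = succ κ ∧ ∀ F : Finset L, (∀ y ∈ F, y ∈ C) →
      Big kj (fun x s => ∀ y ∈ F, U x y s) s₀ := by
  classical
  let good : Set (Set L) := {C | ∀ F : Finset L, (∀ y ∈ F, y ∈ C) →
      Big kj (fun x s => ∀ y ∈ F, U x y s) s₀}
  obtain ⟨C, hC⟩ : ∃ C, Maximal (· ∈ good) C := by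
    apply zorn_subset
    intro c hc hchain
    by_cases hcne : c.Nonempty
    · refine ⟨⋃₀ c, ?_, fun s hs => Set.subset_sUnion_of_mem hs⟩
      intro F hF
      have : ∃ C' ∈ c, (F : Set L) ⊆ C' := by
        have h0 : ((F : Set L)) ⊆ ⋃₀ c := hF
        exact (hchain.directedOn).exists_mem_subset_of_finset_subset_biUnion hcne
          (f := id) (by simpa [Set.sUnion_eq_biUnion] using h0)
      obtain ⟨C', hC', hF'⟩ := this
      exact hc hC' F hF'
    · refine ⟨∅, ?_, fun s hs => absurd ⟨s, hs⟩ hcne⟩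
      intro F hF t ht j
      refine ⟨t, le_rfl, ?_⟩
      have hFe : F = ∅ := Finset.eq_empty_of_forall_notMem fun y hy => hF y hy
      subst hFe
      simp only [Finset.notMem_empty, IsEmpty.forall_iff, implies_true, Set.ofPred_true, mk_univ]
      rw [hK]
      exact (hkj j).le
  have hCg : C ∈ good := hC.prop
  refine ⟨C, ?_, hCg⟩
  apply le_antisymm
  · rw [← hL]
    exact mk_set_le C
  · rw [succ_le_iff]
    by_contra hle
    rw [not_lt] at hle
    let bad : Finset L → Set L := fun F =>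
      {y : L | ¬ Big kj (fun x s => (∀ y ∈ F, U x y s) ∧ U x y s) s₀}
    have hbad : ∀ F : Finset L, (∀ y ∈ F, y ∈ C) → #(bad F) ≤ κ := by
      intro F hF
      exact bad_small kj hkj hkj' hkjm hlim hκ hS U s₀ H (fun x s => ∀ y ∈ F, U x y s)
        (fun x => Reg.all fun y => Reg.all fun _ => hU x y) (hCg F hF)
    let W : Set L := C ∪ ⋃ F : Finset C, bad (F.map (Function.Embedding.subtype _))
    have hFC : #(Finset C) ≤ κ := by
      rcases finite_or_infinite C with hfin | hinf
      · have : Finite (Finset C) := inferInstance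
        exact (lt_aleph0_of_finite _).le.trans hκ.le
      · rw [mk_finset_of_infinite]
        exact hle
    have hW : #W ≤ κ := by
      refine (mk_union_le _ _).trans ?_
      have h1 : #(⋃ F : Finset C, bad (F.map (Function.Embedding.subtype _)) : Set L) ≤ κ := by
        refine (mk_iUnion_le _).trans ?_
        refine (mul_le_mul' hFC (ciSup_le' (a := κ) fun F => hbad _ ?_)).trans
          (mul_eq_self hκ.le).le
        intro y hy
        simp only [Finset.mem_map, Function.Embedding.subtype_apply, Subtype.exists] at hy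
        obtain ⟨a, ha, _, rfl⟩ := hy
        exact ha
      exact (add_le_add hle h1).trans (add_eq_self hκ.le).le
    have : ∃ y, y ∉ W := by
      by_contra hall
      push Not at hall
      have hWu : W = Set.univ := Set.eq_univ_of_forall hall
      rw [hWu, mk_univ, hL] at hW
      exact absurd hW (not_le.2 (lt_succ κ))
    obtain ⟨y, hy⟩ := this
    simp only [W, Set.mem_union, Set.mem_iUnion, not_or, not_exists] at hy
    have hins : insert y C ∈ good := by
      intro F hF
      by_cases hyF : y ∈ F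
      · have hF' : ∀ z ∈ F.erase y, z ∈ C := by
          intro z hz
          rcases hF z (Finset.mem_of_mem_erase hz) with h | h
          · exact absurd h (Finset.ne_of_mem_erase hz)
          · exact h
        have h2 := hy.2 ((F.erase y).subtype (· ∈ C))
        have h3 : ((F.erase y).subtype (· ∈ C)).map (Function.Embedding.subtype _) =
            F.erase y := by
          rw [Finset.subtype_map]
          exact Finset.filter_true_of_mem hF'
        rw [h3] at h2
        simp only [bad, Set.mem_ofPred_eq, not_not] at h2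
        have h4 : (fun (x : K) (s : S) => (∀ z ∈ F.erase y, U x z s) ∧ U x y s) =
            fun (x : K) (s : S) => ∀ z ∈ F, U x z s := by
          funext x s
          apply propext
          constructor
          · rintro ⟨h5, h6⟩ z hz
            by_cases hzy : z = y
            · rw [hzy]
              exact h6
            · exact h5 z (Finset.mem_erase.2 ⟨hzy, hz⟩)
          · intro h5
            exact ⟨fun z hz => h5 z (Finset.mem_of_mem_erase hz), h5 y hyF⟩
        rw [h4] at h2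
        exact h2
      · refine hCg F fun z hz => ?_
        rcases hF z hz with h | h
        · exact absurd (h ▸ hz) hyF
        · exact h
    exact hy.1 (hC.le_of_ge hins (Set.subset_insert y C) (Set.mem_insert y C))

end G

end Pool.Agent.helper60.POS
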